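import Mathlib
import Pool.Agent.Q60.D3.Stm2

/-!
# Project D3: basic facts on the data `KZ`
-/

namespace Pool.Agent.Q144.D3

open Matrix Pool.Agent.H204R3.CM Pool.Agent.H204R3.SP Pool.Agent.W437.HC Pool.Agent.W437.HD
  Pool.Agent.W437.HP Pool.Agent.W437.HR Pool.Agent.Q60.D3

variable {g : ℕ} {Z : Matrix (Fin g) (Fin g) ℂ} (K : KZ Z)

theorem cK_aut {m n : Type*} (M : Matrix m n ℚ) (σ : ℂ ≃+* ℂ) : (cK ℂ M).map σ = cK ℂ M := by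
  ext i j
  simp [cK]

theorem mu_ne : K.μ ≠ 0 := by
  intro h
  have h1 := K.hμ
  rw [h, mul_zero] at h1
  have h2 : (K.d : ℂ) = 0 := by linear_combination h1
  have h3 : K.d = 0 := by exact_mod_cast h2
  exact K.hd.ne_zero h3

theorem skewC : (cK ℂ K.φ)ᵀ * Om g ℂ = -(Om g ℂ * cK ℂ K.φ) := by
  have h1 := congrArg (cK ℂ) K.skew
  have h2 : cK ℂ (-(Om g ℚ * K.φ)) = -cK ℂ (Om g ℚ * K.φ) := by
    ext i j
    simp [cK]
  have h3 : cK ℂ (Om g ℚ) = Om g ℂ := Om_map ℂ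
  rw [h2, cK_mul, cK_mul, h3, cK_transpose] at h1
  exact h1

theorem dot_T {n : Type*} [Fintype n] (A : Matrix n n ℂ) (x w : n → ℂ) :
    (A *ᵥ x) ⬝ᵥ w = x ⬝ᵥ (Aᵀ *ᵥ w) := by
  rw [dotProduct_mulVec, vecMul_transpose]

theorem anti (x y : Fin g ⊕ Fin g → ℂ) : x ⬝ᵥ (Om g ℂ *ᵥ y) = -(y ⬝ᵥ (Om g ℂ *ᵥ x)) := by
  rw [dotProduct_comm, dot_T, Om_transpose, neg_mulVec, dotProduct_neg]

theorem iso {ν : ℂ} (hν : ν ≠ 0) {x y : Fin g ⊕ Fin g → ℂ} (hx : cK ℂ K.φ *ᵥ x = ν • x)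
    (hy : cK ℂ K.φ *ᵥ y = ν • y) : x ⬝ᵥ (Om g ℂ *ᵥ y) = 0 := by
  have h1 : (cK ℂ K.φ *ᵥ x) ⬝ᵥ (Om g ℂ *ᵥ y) = -(x ⬝ᵥ (Om g ℂ *ᵥ (cK ℂ K.φ *ᵥ y))) := by
    rw [dot_T, mulVec_mulVec, skewC, neg_mulVec, dotProduct_neg, mulVec_mulVec]
  rw [hx, hy, mulVec_smul, smul_dotProduct, dotProduct_smul, smul_eq_mul] at h1
  have h2 : 2 * ν * (x ⬝ᵥ (Om g ℂ *ᵥ y)) = 0 := by linear_combination h1
  rcases mul_eq_zero.1 h2 with h3 | h3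
  · exact absurd h3 (mul_ne_zero two_ne_zero hν)
  · exact h3

theorem uu (k l : Fin g) : K.u k ⬝ᵥ (Om g ℂ *ᵥ K.u l) = 0 := iso K (mu_ne K) (K.hu k) (K.hu l)

theorem vv (k l : Fin g) : K.v k ⬝ᵥ (Om g ℂ *ᵥ K.v l) = 0 :=
  iso K (neg_ne_zero.2 (mu_ne K)) (K.hv k) (K.hv l)

theorem pair_v (a b : Fin g → ℂ) (l : Fin g) :
    (∑ k, a k • K.u k + ∑ k, b k • K.v k) ⬝ᵥ (Om g ℂ *ᵥ K.v l) = a l := by
  rw [add_dotProduct, sum_dotProduct, sum_dotProduct]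
  simp only [smul_dotProduct, K.dual, vv, smul_eq_mul, mul_zero, Finset.sum_const_zero, add_zero,
    mul_ite, mul_one]
  simp

theorem pair_u (a b : Fin g → ℂ) (l : Fin g) :
    K.u l ⬝ᵥ (Om g ℂ *ᵥ (∑ k, a k • K.u k + ∑ k, b k • K.v k)) = b l := by
  rw [mulVec_add, mulVec_sum, mulVec_sum, dotProduct_add, dotProduct_sum, dotProduct_sum]
  simp only [mulVec_smul, dotProduct_smul, K.dual, uu, smul_eq_mul, mul_zero,
    Finset.sum_const_zero, zero_add, mul_ite, mul_one]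
  simp

/-- coordinates -/
noncomputable def comb : ((Fin g → ℂ) × (Fin g → ℂ)) →ₗ[ℂ] (Fin g ⊕ Fin g → ℂ) where
  toFun p := ∑ k, p.1 k • K.u k + ∑ k, p.2 k • K.v k
  map_add' p q := by
    simp only [Prod.fst_add, Prod.snd_add, Pi.add_apply, add_smul, Finset.sum_add_distrib]
    abel
  map_smul' c p := by
    simp only [Prod.smul_fst, Prod.smul_snd, Pi.smul_apply, smul_eq_mul, RingHom.id_apply,
      smul_add, Finset.smul_sum, smul_smul]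

theorem comb_inj : Function.Injective (comb K) := by
  intro p q h
  change ∑ k, p.1 k • K.u k + ∑ k, p.2 k • K.v k = ∑ k, q.1 k • K.u k + ∑ k, q.2 k • K.v k at h
  apply Prod.ext
  · funext l
    rw [← pair_v K p.1 p.2 l, h, pair_v]
  · funext l
    rw [← pair_u K p.1 p.2 l, h, pair_u]

theorem comb_surj : Function.Surjective (comb K) := by
  apply (LinearMap.injective_iff_surjective_of_finrank_eq_finrank ?_).1 (comb_inj K)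
  simp

theorem expand (x : Fin g ⊕ Fin g → ℂ) :
    x = ∑ k, (x ⬝ᵥ (Om g ℂ *ᵥ K.v k)) • K.u k + ∑ k, (K.u k ⬝ᵥ (Om g ℂ *ᵥ x)) • K.v k := by
  obtain ⟨⟨a, b⟩, h⟩ := comb_surj K x
  change ∑ k, a k • K.u k + ∑ k, b k • K.v k = x at h
  have h1 : ∀ k, x ⬝ᵥ (Om g ℂ *ᵥ K.v k) = a k := fun k => by rw [← h, pair_v]
  have h2 : ∀ k, K.u k ⬝ᵥ (Om g ℂ *ᵥ x) = b k := fun k => by rw [← h, pair_u]
  simp only [h1, h2]
  exact h.symm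

theorem expand_u {x : Fin g ⊕ Fin g → ℂ} (hx : cK ℂ K.φ *ᵥ x = K.μ • x) :
    x = ∑ k, (x ⬝ᵥ (Om g ℂ *ᵥ K.v k)) • K.u k := by
  have h1 := expand K x
  have h2 : ∀ k, K.u k ⬝ᵥ (Om g ℂ *ᵥ x) = 0 := fun k => iso K (mu_ne K) (K.hu k) hx
  simp only [h2, zero_smul, Finset.sum_const_zero, add_zero] at h1
  exact h1

theorem expand_v {x : Fin g ⊕ Fin g → ℂ} (hx : cK ℂ K.φ *ᵥ x = (-K.μ) • x) :
    x = ∑ k, (K.u k ⬝ᵥ (Om g ℂ *ᵥ x)) • K.v k := by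
  have h1 := expand K x
  have h2 : ∀ k, x ⬝ᵥ (Om g ℂ *ᵥ K.v k) = 0 :=
    fun k => iso K (neg_ne_zero.2 (mu_ne K)) hx (K.hv k)
  simp only [h2, zero_smul, Finset.sum_const_zero, zero_add] at h1
  exact h1

/-- the action on the eigenspace of `μ` -/
noncomputable def MM : Matrix (Fin g ⊕ Fin g) (Fin g ⊕ Fin g) ℂ →ₗ[ℂ] Matrix (Fin g) (Fin g) ℂ where
  toFun X := Matrix.of fun l k => (X *ᵥ K.u k) ⬝ᵥ (Om g ℂ *ᵥ K.v l)
  map_add' X Y := by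
    ext l k
    simp [add_mulVec]
  map_smul' c X := by
    ext l k
    simp [smul_mulVec]

theorem MM_apply (X : Matrix (Fin g ⊕ Fin g) (Fin g ⊕ Fin g) ℂ) (l k : Fin g) :
    MM K X l k = (X *ᵥ K.u k) ⬝ᵥ (Om g ℂ *ᵥ K.v l) := rfl

variable {K}

theorem act_u {X : Matrix (Fin g ⊕ Fin g) (Fin g ⊕ Fin g) ℂ}
    (hX : X * cK ℂ K.φ = cK ℂ K.φ * X) (k : Fin g) :
    X *ᵥ K.u k = ∑ l, MM K X l k • K.u l := by
  apply expand_u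
  rw [mulVec_mulVec, ← hX, ← mulVec_mulVec, K.hu, mulVec_smul]

theorem act_v {X : Matrix (Fin g ⊕ Fin g) (Fin g ⊕ Fin g) ℂ}
    (hX : X * cK ℂ K.φ = cK ℂ K.φ * X) (hs : Xᵀ * Om g ℂ + Om g ℂ * X = 0) (k : Fin g) :
    X *ᵥ K.v k = -∑ l, MM K X k l • K.v l := by
  have h1 : cK ℂ K.φ *ᵥ (X *ᵥ K.v k) = (-K.μ) • (X *ᵥ K.v k) := by
    rw [mulVec_mulVec, ← hX, ← mulVec_mulVec, K.hv, mulVec_smul]
  rw [← Finset.sum_neg_distrib]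
  conv_lhs => rw [expand_v K h1]
  refine Finset.sum_congr rfl fun l _ => ?_
  rw [← neg_smul]
  congr 1
  rw [MM_apply, dot_T, mulVec_mulVec, mulVec_mulVec, ← dotProduct_neg, ← neg_mulVec]
  congr 2
  exact (eq_neg_of_add_eq_zero_right hs)

theorem MM_mul {X Y : Matrix (Fin g ⊕ Fin g) (Fin g ⊕ Fin g) ℂ}
    (hY : Y * cK ℂ K.φ = cK ℂ K.φ * Y) : MM K (X * Y) = MM K X * MM K Y := by
  ext l k
  rw [MM_apply, ← mulVec_mulVec, act_u hY, mulVec_sum, sum_dotProduct, Matrix.mul_apply]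
  refine Finset.sum_congr rfl fun m _ => ?_
  rw [mulVec_smul, smul_dotProduct, smul_eq_mul, ← MM_apply K X l m, mul_comm]

variable (K)

theorem com_aut (σ : ℂ ≃+* ℂ) : (DZ Z).map σ * cK ℂ K.φ = cK ℂ K.φ * (DZ Z).map σ := by
  have h1 := congrArg (fun M : Matrix (Fin g ⊕ Fin g) (Fin g ⊕ Fin g) ℂ => M.map σ) K.com
  simp only [Matrix.map_mul, cK_aut] at h1
  exact h1.symm

theorem sp_aut (hZ : Zᵀ = Z) (σ : ℂ ≃+* ℂ) :
    ((DZ Z).map σ)ᵀ * Om g ℂ + Om g ℂ * (DZ Z).map σ = 0 :=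
  sp_C hZ _ (map_mem_aut (D_mem (DZ Z)) (σ : ℂ →+* ℂ))

theorem sq_aut (hpos : (imM Z).PosDef) (σ : ℂ ≃+* ℂ) : (DZ Z).map σ * (DZ Z).map σ = 1 := by
  have h1 := congrArg (fun M : Matrix (Fin g ⊕ Fin g) (Fin g ⊕ Fin g) ℂ => M.map σ)
    (DZ_sq (Z := Z) (hpos.isUnit.map Matrix.detMonoidHom))
  simp only [Matrix.map_mul] at h1
  rw [h1, Matrix.map_one _ (map_zero σ) (map_one σ)]

end Pool.Agent.Q144.D3
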