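import Mathlib
import Pool.Agent.Q144.D3.KZb

/-!
# Project D3, job CHIZ: the conjugates of the Hodge operator on the two eigenspaces
-/

namespace Pool.Agent.Q144.D3

open Matrix Pool.Agent.H204R3.CM Pool.Agent.H204R3.SP Pool.Agent.W437.HC Pool.Agent.W437.HD
  Pool.Agent.W437.HP Pool.Agent.W437.HR Pool.Agent.Q60.D3

variable {g : ℕ} {Z : Matrix (Fin g) (Fin g) ℂ}

theorem aut_mulVec {n : Type*} [Fintype n] (σ : ℂ ≃+* ℂ) (A : Matrix n n ℂ) (x : n → ℂ) :
    A.map σ *ᵥ (fun i => σ (x i)) = fun i => σ ((A *ᵥ x) i) := by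
  funext i
  simp [mulVec, dotProduct, map_sum, map_mul]

theorem aut_dot {n : Type*} [Fintype n] (σ : ℂ ≃+* ℂ) (x y : n → ℂ) :
    (fun i => σ (x i)) ⬝ᵥ (fun i => σ (y i)) = σ (x ⬝ᵥ y) := by
  simp [dotProduct, map_sum, map_mul]

theorem Om_aut' (σ : ℂ ≃+* ℂ) : (Om g ℂ).map σ = Om g ℂ := Om_aut (σ : ℂ →+* ℂ)

theorem aut_pair (σ : ℂ ≃+* ℂ) (x y : Fin g ⊕ Fin g → ℂ) :
    (fun i => σ (x i)) ⬝ᵥ (Om g ℂ *ᵥ fun i => σ (y i)) = σ (x ⬝ᵥ (Om g ℂ *ᵥ y)) := by
  rw [← aut_dot, ← aut_mulVec, Om_aut']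

theorem trace_of (K : KZ Z) {X : Matrix (Fin g ⊕ Fin g) (Fin g ⊕ Fin g) ℂ}
    (hX : X * cK ℂ K.φ = cK ℂ K.φ * X) (w w' : Fin g → Fin g ⊕ Fin g → ℂ)
    (hw : ∀ k, cK ℂ K.φ *ᵥ w k = K.μ • w k) (hw' : ∀ k, cK ℂ K.φ *ᵥ w' k = (-K.μ) • w' k)
    (hdual : ∀ k l, w k ⬝ᵥ (Om g ℂ *ᵥ w' l) = if k = l then 1 else 0) (ε : Fin g → ℂ)
    (hε : ∀ k, X *ᵥ w k = ε k • w k) : (MM K X).trace = ∑ k, ε k := by
  set R : Matrix (Fin g) (Fin g) ℂ := Matrix.of fun l k => w k ⬝ᵥ (Om g ℂ *ᵥ K.v l) with hR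
  set R' : Matrix (Fin g) (Fin g) ℂ := Matrix.of fun l k => K.u l ⬝ᵥ (Om g ℂ *ᵥ w' k) with hR'
  have h1 : ∀ k, w k = ∑ l, R l k • K.u l := fun k => expand_u K (hw k)
  have h3 : Rᵀ * R' = 1 := by
    ext k l
    rw [Matrix.one_apply, ← hdual k l]
    conv_rhs => rw [h1 k]
    rw [sum_dotProduct, Matrix.mul_apply]
    refine Finset.sum_congr rfl fun m _ => ?_
    rw [smul_dotProduct, smul_eq_mul]
    rfl
  have h4 : MM K X * R = R * Matrix.diagonal ε := by
    ext l k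
    rw [Matrix.mul_diagonal]
    have h5 : R l k * ε k = (X *ᵥ w k) ⬝ᵥ (Om g ℂ *ᵥ K.v l) := by
      rw [hε, smul_dotProduct, smul_eq_mul, mul_comm]
      rfl
    rw [h5]
    conv_rhs => rw [h1 k]
    rw [mulVec_sum, sum_dotProduct, Matrix.mul_apply]
    refine Finset.sum_congr rfl fun m _ => ?_
    rw [mulVec_smul, smul_dotProduct, smul_eq_mul, MM_apply, mul_comm]
  have h5 : R'ᵀ * R = 1 := by
    have h6 := congrArg Matrix.transpose h3
    rwa [transpose_mul, transpose_transpose, transpose_one] at h6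
  have h6 : R * R'ᵀ = 1 := mul_eq_one_comm.1 h5
  calc (MM K X).trace = (MM K X * (R * R'ᵀ)).trace := by rw [h6, Matrix.mul_one]
    _ = (R * Matrix.diagonal ε * R'ᵀ).trace := by rw [← Matrix.mul_assoc, h4]
    _ = (R'ᵀ * R * Matrix.diagonal ε).trace := by
        rw [Matrix.trace_mul_comm, Matrix.mul_assoc]
    _ = ∑ k, ε k := by rw [h5, Matrix.one_mul, Matrix.trace_diagonal]

/-- JOB CHIZ, with the correct order of the indices. -/
def S_chiz' : Prop :=
  ∀ (g : ℕ) (Z : Matrix (Fin g) (Fin g) ℂ), Zᵀ = Z → (imM Z).PosDef → ∀ (K : KZ Z) (σ : ℂ ≃+* ℂ),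
    ∃ T : Matrix (Fin g) (Fin g) ℂ, (∀ k, (DZ Z).map σ *ᵥ K.u k = ∑ l, T l k • K.u l) ∧
      (∀ k, (DZ Z).map σ *ᵥ K.v k = -∑ l, T k l • K.v l) ∧ T * T = 1 ∧ T.trace = (chi K.μ σ : ℂ)

theorem chiz' : S_chiz' := by
  intro g Z hZ hpos K σ
  refine ⟨MM K ((DZ Z).map σ), act_u (com_aut K σ), act_v (com_aut K σ) (sp_aut hZ σ), ?_, ?_⟩
  · rw [← MM_mul (com_aut K σ), sq_aut hpos]
    ext l k
    rw [MM_apply, one_mulVec, K.dual, Matrix.one_apply]
    by_cases h : l = k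
    · rw [if_pos h, if_pos h.symm]
    · rw [if_neg h, if_neg (Ne.symm h)]
  · have hs : ∑ k : Fin g, (if (k : ℕ) = 2 then (-1 : ℂ) else 1) = 1 := by
      rcases K.hg with h | h
      · subst h
        simp
      · subst h
        rw [Fin.sum_univ_three]
        simp
    have hs' : ∑ k : Fin g, (if (k : ℕ) = 2 then (1 : ℂ) else -1) = -1 := by
      have e : ∀ k : Fin g, (if (k : ℕ) = 2 then (1 : ℂ) else -1) =
          -(if (k : ℕ) = 2 then (-1 : ℂ) else 1) := by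
        intro k
        split_ifs <;> ring
      rw [Finset.sum_congr rfl fun k _ => e k, Finset.sum_neg_distrib, hs]
    have hu : ∀ k, cK ℂ K.φ *ᵥ (fun i => σ (K.u k i)) = σ K.μ • fun i => σ (K.u k i) := by
      intro k
      conv_lhs => rw [← cK_aut K.φ σ]
      rw [aut_mulVec, K.hu]
      funext i
      simp
    have hv : ∀ k, cK ℂ K.φ *ᵥ (fun i => σ (K.v k i)) = -σ K.μ • fun i => σ (K.v k i) := by
      intro k
      conv_lhs => rw [← cK_aut K.φ σ]
      rw [aut_mulVec, K.hv]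
      funext i
      simp
    by_cases hμ : σ K.μ = K.μ
    · have h1 : (chi K.μ σ : ℂ) = 1 := by
        unfold chi
        rw [if_pos hμ]
        simp
      rw [h1, ← hs]
      refine trace_of K (com_aut K σ) (fun k i => σ (K.u k i)) (fun k i => σ (K.v k i)) ?_ ?_ ?_ _ ?_
      · intro k
        rw [hu, hμ]
      · intro k
        rw [hv, hμ]
      · intro k l
        rw [aut_pair, K.dual]
        split_ifs <;> simp
      · intro k
        rw [aut_mulVec, K.hDu]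
        funext i
        simp only [Pi.smul_apply, smul_eq_mul, map_mul]
        split_ifs <;> simp
    · have h1 : (chi K.μ σ : ℂ) = -1 := by
        unfold chi
        rw [if_neg hμ]
        simp
      have h2 : σ K.μ = -K.μ := by
        have h3 : σ K.μ * σ K.μ = K.μ * K.μ := by
          rw [← map_mul, K.hμ]
          simp
        rcases mul_self_eq_mul_self_iff.1 h3 with h4 | h4
        · exact absurd h4 hμ
        · exact h4
      rw [h1, ← hs']
      refine trace_of K (com_aut K σ) (fun k i => σ (K.v k i)) (fun k => -fun i => σ (K.u k i))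
        ?_ ?_ ?_ _ ?_
      · intro k
        rw [hv, h2, neg_neg]
      · intro k
        rw [mulVec_neg, hu, h2, smul_neg]
      · intro k l
        rw [mulVec_neg, dotProduct_neg, ← anti, aut_pair, K.dual]
        by_cases h : l = k
        · rw [if_pos h, if_pos h.symm, map_one]
        · rw [if_neg h, if_neg (Ne.symm h), map_zero]
      · intro k
        rw [aut_mulVec, K.hDv]
        funext i
        simp only [Pi.smul_apply, smul_eq_mul, map_mul]
        split_ifs <;> simp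

end Pool.Agent.Q144.D3
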