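import Mathlib

/-!
# Project D3, job FULL: irreducible Lie algebras of 3 by 3 matrices which contain `diag(1, 1, -1)`
-/

namespace Pool.Agent.Q144.D3

open Matrix

/-- the upper right part -/
noncomputable def Ep (a b : ℂ) : Matrix (Fin 3) (Fin 3) ℂ :=
  Matrix.of fun i j => if j = 2 then (if i = 0 then a else if i = 1 then b else 0) else 0

theorem Ep_apply (a b : ℂ) (i j : Fin 3) :
    Ep a b i j = if j = 2 then (if i = 0 then a else if i = 1 then b else 0) else 0 := rfl

/-- the upper right part of an element -/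
theorem part_mem {P : Submodule ℂ (Matrix (Fin 3) (Fin 3) ℂ)}
    (hbr : ∀ X ∈ P, ∀ Y ∈ P, X * Y - Y * X ∈ P) (hd : (Matrix.diagonal ![1, 1, -1]) ∈ P)
    {X : Matrix (Fin 3) (Fin 3) ℂ} (hX : X ∈ P) : Ep (X 0 2) (X 1 2) ∈ P := by
  set d : Fin 3 → ℂ := ![1, 1, -1] with hdd
  have h1 := hbr _ hd _ hX
  have h2 := hbr _ hd _ h1
  have h3 : Ep (X 0 2) (X 1 2) = (1 / 8 : ℂ) • (diagonal d * (diagonal d * X - X * diagonal d) -
      (diagonal d * X - X * diagonal d) * diagonal d) +
      (1 / 4 : ℂ) • (diagonal d * X - X * diagonal d) := by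
    ext i j
    simp only [Matrix.add_apply, Matrix.smul_apply, Matrix.sub_apply, Matrix.diagonal_mul,
      Matrix.mul_diagonal, Ep_apply, smul_eq_mul]
    fin_cases i <;> fin_cases j <;> simp [hdd] <;> ring
  rw [h3]
  exact P.add_mem (P.smul_mem _ h2) (P.smul_mem _ h1)

theorem Ep_mem {P : Submodule ℂ (Matrix (Fin 3) (Fin 3) ℂ)}
    (hbr : ∀ X ∈ P, ∀ Y ∈ P, X * Y - Y * X ∈ P) (hd : (Matrix.diagonal ![1, 1, -1]) ∈ P)
    (h1 : ∀ w : Fin 3 → ℂ, (∀ X ∈ P, ∃ c : ℂ, X *ᵥ w = c • w) → w = 0)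
    (h2 : ∀ w : Fin 3 → ℂ, (∀ X ∈ P, ∃ c : ℂ, Xᵀ *ᵥ w = c • w) → w = 0) (a' b' : ℂ) :
    Ep a' b' ∈ P := by
  -- a nonzero element
  obtain ⟨a, b, hab, habP⟩ : ∃ a b : ℂ, (a ≠ 0 ∨ b ≠ 0) ∧ Ep a b ∈ P := by
    by_contra hcon
    push Not at hcon
    have h3 : (![0, 0, 1] : Fin 3 → ℂ) = 0 := by
      apply h1
      intro X hX
      have h4 := part_mem hbr hd hX
      have h5 : X 0 2 = 0 ∧ X 1 2 = 0 := by
        constructor
        · by_contra h; exact hcon _ _ (Or.inl h) h4
        · by_contra h; exact hcon _ _ (Or.inr h) h4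
      refine ⟨X 2 2, ?_⟩
      funext i
      fin_cases i <;> simp [mulVec, dotProduct, Fin.sum_univ_three, h5.1, h5.2]
    have h4 := congrFun h3 2
    simp at h4
  -- another one, linearly independent
  obtain ⟨Y, hY, hne⟩ : ∃ Y ∈ P, Y 0 2 * b - Y 1 2 * a ≠ 0 := by
    by_contra hcon
    push Not at hcon
    have h3 : (![b, -a, 0] : Fin 3 → ℂ) = 0 := by
      apply h2
      intro X hX
      have h4 := hcon X hX
      have h5 := hcon _ (hbr _ hX _ habP)
      simp [Ep_apply, Matrix.mul_apply, Fin.sum_univ_three, Matrix.sub_apply] at h5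
      have h6 : (X 0 0 * b - X 1 0 * a) * a + (X 0 1 * b - X 1 1 * a) * b = 0 := by
        linear_combination h5
      rcases eq_or_ne b 0 with hb | hb
      · have ha : a ≠ 0 := by
          rcases hab with h | h
          · exact h
          · exact absurd hb h
        refine ⟨-(X 0 1 * b - X 1 1 * a) / a, ?_⟩
        have h7 : X 0 0 * b - X 1 0 * a = -(X 0 1 * b - X 1 1 * a) / a * b := by
          field_simp
          linear_combination h6
        funext i
        fin_cases i
        · simp [mulVec, dotProduct, Fin.sum_univ_three]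
          linear_combination h7
        · simp [mulVec, dotProduct, Fin.sum_univ_three]
          field_simp
          ring
        · simp [mulVec, dotProduct, Fin.sum_univ_three]
          linear_combination h4
      · refine ⟨(X 0 0 * b - X 1 0 * a) / b, ?_⟩
        have h7 : X 0 1 * b - X 1 1 * a = -((X 0 0 * b - X 1 0 * a) / b * a) := by
          field_simp
          linear_combination h6
        funext i
        fin_cases i
        · simp [mulVec, dotProduct, Fin.sum_univ_three]
          field_simp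
          ring
        · simp [mulVec, dotProduct, Fin.sum_univ_three]
          linear_combination h7
        · simp [mulVec, dotProduct, Fin.sum_univ_three]
          linear_combination h4
    have h4 := congrFun h3 0
    have h5 := congrFun h3 1
    simp at h4 h5
    rcases hab with h | h
    · exact h h5
    · exact h h4
  have hYP := part_mem hbr hd hY
  set p := Y 0 2
  set q := Y 1 2
  have h6 : Ep a' b' = ((p * b' - q * a') / (p * b - q * a)) • Ep a b +
      ((a' * b - b' * a) / (p * b - q * a)) • Ep p q := by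
    ext i j
    simp only [Matrix.add_apply, Matrix.smul_apply, Ep_apply, smul_eq_mul]
    fin_cases i <;> fin_cases j <;> simp <;> field_simp <;> ring
  rw [h6]
  exact P.add_mem (P.smul_mem _ habP) (P.smul_mem _ hYP)

/-- A Lie algebra of matrices with `diag(1, 1, -1)` and without invariant lines and planes contains
the elementary matrices off the diagonal. -/
theorem single_mem {P : Submodule ℂ (Matrix (Fin 3) (Fin 3) ℂ)}
    (hbr : ∀ X ∈ P, ∀ Y ∈ P, X * Y - Y * X ∈ P) (hd : (Matrix.diagonal ![1, 1, -1]) ∈ P)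
    (h1 : ∀ w : Fin 3 → ℂ, (∀ X ∈ P, ∃ c : ℂ, X *ᵥ w = c • w) → w = 0)
    (h2 : ∀ w : Fin 3 → ℂ, (∀ X ∈ P, ∃ c : ℂ, Xᵀ *ᵥ w = c • w) → w = 0) :
    ∀ i j : Fin 3, i ≠ j → Matrix.single i j (1 : ℂ) ∈ P := by
  have hp := Ep_mem hbr hd h1 h2
  -- the transposed algebra
  let T : Matrix (Fin 3) (Fin 3) ℂ →ₗ[ℂ] Matrix (Fin 3) (Fin 3) ℂ :=
    (Matrix.transposeLinearEquiv (Fin 3) (Fin 3) ℂ ℂ).toLinearMap
  have hT : ∀ X, T X = Xᵀ := fun X => rfl
  have hmem : ∀ X, X ∈ P.comap T ↔ Xᵀ ∈ P := fun X => Iff.rfl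
  have hm : ∀ a b : ℂ, (Ep a b)ᵀ ∈ P := by
    intro a b
    have h3 : Ep a b ∈ P.comap T := by
      apply Ep_mem
      · intro X hX Y hY
        rw [hmem] at hX hY ⊢
        have h4 := hbr _ hY _ hX
        rw [transpose_sub, transpose_mul, transpose_mul]
        exact h4
      · rw [hmem, diagonal_transpose]
        exact hd
      · intro w hw
        apply h2
        intro X hX
        apply hw
        rw [hmem, transpose_transpose]
        exact hX
      · intro w hw
        apply h1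
        intro X hX
        have h4 := hw Xᵀ (by rw [hmem, transpose_transpose]; exact hX)
        rwa [transpose_transpose] at h4
    exact h3
  have e02 : Matrix.single 0 2 (1 : ℂ) = Ep 1 0 := by
    ext i j
    fin_cases i <;> fin_cases j <;> simp [Ep_apply, Matrix.single]
  have e12 : Matrix.single 1 2 (1 : ℂ) = Ep 0 1 := by
    ext i j
    fin_cases i <;> fin_cases j <;> simp [Ep_apply, Matrix.single]
  have e20 : Matrix.single 2 0 (1 : ℂ) = (Ep 1 0)ᵀ := by
    ext i j
    fin_cases i <;> fin_cases j <;> simp [Ep_apply, Matrix.single]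
  have e21 : Matrix.single 2 1 (1 : ℂ) = (Ep 0 1)ᵀ := by
    ext i j
    fin_cases i <;> fin_cases j <;> simp [Ep_apply, Matrix.single]
  have e01 : Matrix.single 0 1 (1 : ℂ) = Ep 1 0 * (Ep 0 1)ᵀ - (Ep 0 1)ᵀ * Ep 1 0 := by
    ext i j
    fin_cases i <;> fin_cases j <;> simp [Ep_apply, Matrix.single, Matrix.mul_apply, Fin.sum_univ_three]
  have e10 : Matrix.single 1 0 (1 : ℂ) = Ep 0 1 * (Ep 1 0)ᵀ - (Ep 1 0)ᵀ * Ep 0 1 := by
    ext i j
    fin_cases i <;> fin_cases j <;> simp [Ep_apply, Matrix.single, Matrix.mul_apply, Fin.sum_univ_three]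
  intro i j hij
  fin_cases i <;> fin_cases j
  · exact absurd rfl hij
  · change Matrix.single 0 1 (1 : ℂ) ∈ P
    rw [e01]; exact hbr _ (hp 1 0) _ (hm 0 1)
  · change Matrix.single 0 2 (1 : ℂ) ∈ P
    rw [e02]; exact hp 1 0
  · change Matrix.single 1 0 (1 : ℂ) ∈ P
    rw [e10]; exact hbr _ (hp 0 1) _ (hm 1 0)
  · exact absurd rfl hij
  · change Matrix.single 1 2 (1 : ℂ) ∈ P
    rw [e12]; exact hp 0 1
  · change Matrix.single 2 0 (1 : ℂ) ∈ P
    rw [e20]; exact hm 1 0
  · change Matrix.single 2 1 (1 : ℂ) ∈ P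
    rw [e21]; exact hm 0 1
  · exact absurd rfl hij

end Pool.Agent.Q144.D3
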