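import Mathlib
import Pool.Agent.Q144.D3.KZb
import Pool.Agent.Q144.D3.Sl3

/-!
# Project D3, job FULL: the Lie algebra contains `sl_3`
-/

namespace Pool.Agent.Q144.D3

open Matrix Pool.Agent.H204R3.CM Pool.Agent.H204R3.SP Pool.Agent.W437.HC Pool.Agent.W437.HD
  Pool.Agent.W437.HP Pool.Agent.W437.HR Pool.Agent.Q60.D3

variable {g : ℕ} {Z : Matrix (Fin g) (Fin g) ℂ}

/-- the elements commuting with the endomorphism and preserving the symplectic form -/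
noncomputable def L1 (K : KZ Z) (L : Submodule ℂ (Matrix (Fin g ⊕ Fin g) (Fin g ⊕ Fin g) ℂ)) :
    Submodule ℂ (Matrix (Fin g ⊕ Fin g) (Fin g ⊕ Fin g) ℂ) where
  carrier := {X | X ∈ L ∧ X * cK ℂ K.φ = cK ℂ K.φ * X ∧ Xᵀ * Om g ℂ + Om g ℂ * X = 0}
  zero_mem' := ⟨L.zero_mem, by simp, by simp⟩
  add_mem' := by
    rintro X Y ⟨h1, h2, h3⟩ ⟨h4, h5, h6⟩
    refine ⟨L.add_mem h1 h4, ?_, ?_⟩
    · rw [Matrix.add_mul, Matrix.mul_add, h2, h5]
    · have h7 : (X + Y)ᵀ * Om g ℂ + Om g ℂ * (X + Y) =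
          (Xᵀ * Om g ℂ + Om g ℂ * X) + (Yᵀ * Om g ℂ + Om g ℂ * Y) := by
        rw [transpose_add, Matrix.add_mul, Matrix.mul_add]
        abel
      rw [h7, h3, h6, add_zero]
  smul_mem' := by
    rintro c X ⟨h1, h2, h3⟩
    refine ⟨L.smul_mem c h1, ?_, ?_⟩
    · rw [Matrix.smul_mul, Matrix.mul_smul, h2]
    · rw [transpose_smul, Matrix.smul_mul, Matrix.mul_smul, ← smul_add, h3, smul_zero]

theorem L1_br (K : KZ Z) {L : Submodule ℂ (Matrix (Fin g ⊕ Fin g) (Fin g ⊕ Fin g) ℂ)}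
    (hL : ∀ X ∈ L, ∀ Y ∈ L, X * Y - Y * X ∈ L) : ∀ X ∈ L1 K L, ∀ Y ∈ L1 K L, X * Y - Y * X ∈ L1 K L := by
  rintro X ⟨h1, h2, h3⟩ Y ⟨h4, h5, h6⟩
  refine ⟨hL X h1 Y h4, ?_, ?_⟩
  · calc (X * Y - Y * X) * cK ℂ K.φ = X * (Y * cK ℂ K.φ) - Y * (X * cK ℂ K.φ) := by noncomm_ring
      _ = X * (cK ℂ K.φ * Y) - Y * (cK ℂ K.φ * X) := by rw [h5, h2]
      _ = (X * cK ℂ K.φ) * Y - (Y * cK ℂ K.φ) * X := by noncomm_ring
      _ = (cK ℂ K.φ * X) * Y - (cK ℂ K.φ * Y) * X := by rw [h5, h2]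
      _ = cK ℂ K.φ * (X * Y - Y * X) := by noncomm_ring
  · have e1 : Xᵀ * Om g ℂ = -(Om g ℂ * X) := eq_neg_of_add_eq_zero_left h3
    have e2 : Yᵀ * Om g ℂ = -(Om g ℂ * Y) := eq_neg_of_add_eq_zero_left h6
    have e3 : (X * Y - Y * X)ᵀ * Om g ℂ = Yᵀ * (Xᵀ * Om g ℂ) - Xᵀ * (Yᵀ * Om g ℂ) := by
      rw [transpose_sub, transpose_mul, transpose_mul]
      noncomm_ring
    rw [e3, e1, e2]
    have e4 : Yᵀ * -(Om g ℂ * X) - Xᵀ * -(Om g ℂ * Y) =
        -((Yᵀ * Om g ℂ) * X) + (Xᵀ * Om g ℂ) * Y := by noncomm_ring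
    rw [e4, e1, e2]
    noncomm_ring

theorem full (h : S_noe) : S_full := by
  intro g Z hZ hpos hs hnc K L hL hD i j hij
  have hnoe := h g Z hZ hpos hs hnc
  rcases K.hg with hg | hg
  · subst hg
    exact absurd (Subsingleton.elim i j) hij
  subst hg
  have hσ : ∀ σ : ℂ ≃+* ℂ, (DZ Z).map σ ∈ L1 K L := fun σ => ⟨hD σ, com_aut K σ, sp_aut hZ σ⟩
  set P := (L1 K L).map (MM K) with hP
  have hbr : ∀ X ∈ P, ∀ Y ∈ P, X * Y - Y * X ∈ P := by
    rintro _ ⟨X, hX, rfl⟩ _ ⟨Y, hY, rfl⟩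
    refine ⟨X * Y - Y * X, L1_br K hL X hX Y hY, ?_⟩
    rw [map_sub, MM_mul hY.2.1, MM_mul hX.2.1]
  have hd : (Matrix.diagonal ![1, 1, -1] : Matrix (Fin 3) (Fin 3) ℂ) ∈ P := by
    refine ⟨DZ Z, ?_, ?_⟩
    · have h1 := hσ (RingEquiv.refl ℂ)
      have h2 : (DZ Z).map (RingEquiv.refl ℂ) = DZ Z := by
        ext i j
        rfl
      rwa [h2] at h1
    · ext l k
      rw [MM_apply, K.hDu, smul_dotProduct, K.dual, Matrix.diagonal_apply]
      fin_cases l <;> fin_cases k <;> simp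
  have h1 : ∀ w : Fin 3 → ℂ, (∀ X ∈ P, ∃ c : ℂ, X *ᵥ w = c • w) → w = 0 := by
    intro w hw
    have h2 : ∑ k, w k • K.u k = 0 := by
      apply hnoe
      intro σ
      obtain ⟨c, hc⟩ := hw _ ⟨_, hσ σ, rfl⟩
      refine ⟨c, ?_⟩
      have h3 : (DZ Z).map σ *ᵥ (∑ k, w k • K.u k) =
          ∑ l, (MM K ((DZ Z).map σ) *ᵥ w) l • K.u l := by
        rw [mulVec_sum]
        simp only [mulVec_smul, act_u (com_aut K σ), Finset.smul_sum, smul_smul]
        rw [Finset.sum_comm]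
        refine Finset.sum_congr rfl fun l _ => ?_
        rw [← Finset.sum_smul]
        congr 1
        simp only [mulVec, dotProduct]
        exact Finset.sum_congr rfl fun k _ => mul_comm _ _
      rw [h3, hc, Finset.smul_sum]
      simp only [Pi.smul_apply, smul_smul, smul_eq_mul]
    funext l
    have h3 := pair_v K w 0 l
    simp only [Pi.zero_apply, zero_smul, Finset.sum_const_zero, add_zero] at h3
    rw [← h3, h2, zero_dotProduct]
    rfl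
  have h2 : ∀ w : Fin 3 → ℂ, (∀ X ∈ P, ∃ c : ℂ, Xᵀ *ᵥ w = c • w) → w = 0 := by
    intro w hw
    have h2 : ∑ k, w k • K.v k = 0 := by
      apply hnoe
      intro σ
      obtain ⟨c, hc⟩ := hw _ ⟨_, hσ σ, rfl⟩
      refine ⟨-c, ?_⟩
      have h3 : (DZ Z).map σ *ᵥ (∑ k, w k • K.v k) =
          -∑ l, ((MM K ((DZ Z).map σ))ᵀ *ᵥ w) l • K.v l := by
        rw [mulVec_sum]
        simp only [mulVec_smul, act_v (com_aut K σ) (sp_aut hZ σ), smul_neg, Finset.smul_sum,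
          smul_smul, Finset.sum_neg_distrib]
        rw [Finset.sum_comm]
        congr 1
        refine Finset.sum_congr rfl fun l _ => ?_
        rw [← Finset.sum_smul]
        congr 1
        simp only [mulVec, dotProduct, transpose_apply]
        exact Finset.sum_congr rfl fun k _ => mul_comm _ _
      rw [h3, hc, neg_smul, Finset.smul_sum]
      simp only [Pi.smul_apply, smul_smul, smul_eq_mul]
    funext l
    have h3 := pair_u K 0 w l
    simp only [Pi.zero_apply, zero_smul, Finset.sum_const_zero, zero_add] at h3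
    rw [← h3, h2, mulVec_zero, dotProduct_zero]
    rfl
  obtain ⟨X, hX, hX2⟩ := single_mem hbr hd h1 h2 i j hij
  refine ⟨X, hX.1, fun k => ?_⟩
  rw [act_u hX.2.1, hX2]
  simp only [Matrix.single_apply]
  by_cases hk : k = j
  · subst hk
    simp
  · rw [if_neg hk]
    refine Finset.sum_eq_zero fun l _ => ?_
    rw [if_neg, zero_smul]
    rintro ⟨-, h5⟩
    exact hk h5.symm

end Pool.Agent.Q144.D3
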