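import Mathlib
import Pool.Agent.Q60.D3.Stm2
import Pool.Agent.W437.HD.Simple

/-!
# Project D3, job NOE: no common eigenvectors
-/

namespace Pool.Agent.Q144.D3

open Matrix Pool.Agent.H204R3.CM Pool.Agent.H204R3.SP Pool.Agent.W437.HC Pool.Agent.W437.HD
  Pool.Agent.W437.HP Pool.Agent.W437.HR Pool.Agent.Q60.D3

/-- A conjugated vector of a vector on which all conjugates of the operator act by scalars. -/
theorem conj_eig {B : Type*} [Fintype B] {D : Matrix B B ℂ} {v : B → ℂ}
    (hv : ∀ σ : ℂ ≃+* ℂ, ∃ c : ℂ, D.map σ *ᵥ v = c • v) (σ τ : ℂ ≃+* ℂ) :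
    ∃ c : ℂ, D.map σ *ᵥ (fun i => τ (v i)) = c • (fun i => τ (v i)) := by
  obtain ⟨c, hc⟩ := hv (σ.trans τ.symm)
  refine ⟨τ c, ?_⟩
  funext i
  have h1 := congrArg τ (congrFun hc i)
  simp only [mulVec, dotProduct, Matrix.map_apply, map_sum, map_mul, RingEquiv.coe_trans,
    Function.comp_apply, RingEquiv.apply_symm_apply, Pi.smul_apply, smul_eq_mul] at h1 ⊢
  exact h1

/-- The span of the conjugates of a vector. -/
noncomputable def CS {B : Type*} (v : B → ℂ) : Submodule ℂ (B → ℂ) :=
  Submodule.span ℂ (Set.range fun τ : ℂ ≃+* ℂ => fun i => τ (v i))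

theorem CS_aut {B : Type*} (v : B → ℂ) (σ : ℂ ≃+* ℂ) : ∀ x ∈ CS v, (fun i => σ (x i)) ∈ CS v := by
  intro x hx
  unfold CS at hx
  induction hx using Submodule.span_induction with
  | mem w hw =>
    obtain ⟨τ, rfl⟩ := hw
    exact Submodule.subset_span ⟨τ.trans σ, rfl⟩
  | zero =>
    have h1 : (fun i => σ ((0 : B → ℂ) i)) = 0 := by
      funext i
      simp
    rw [h1]
    exact Submodule.zero_mem _
  | add x y _ _ h1 h2 =>
    have h3 : (fun i => σ ((x + y) i)) = (fun i => σ (x i)) + fun i => σ (y i) := by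
      funext i
      simp
    rw [h3]
    exact Submodule.add_mem _ h1 h2
  | smul a x _ h1 =>
    have h3 : (fun i => σ ((a • x) i)) = σ a • fun i => σ (x i) := by
      funext i
      simp
    rw [h3]
    exact Submodule.smul_mem _ _ h1

theorem noe : S_noe := by
  intro g Z hZ hpos hs hnc v hv
  by_contra hv0
  apply hnc
  have hY : IsUnit (imM Z).det := hpos.isUnit.map Matrix.detMonoidHom
  have hid : (DZ Z).map (RingEquiv.refl ℂ) = DZ Z := by
    ext i j
    rfl
  have htop : CS v = ⊤ := by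
    refine stable_eq_top hY hs (CS v) (fun σ => CS_aut v σ) ?_ ?_
    · intro x hx
      unfold CS at hx
      induction hx using Submodule.span_induction with
      | mem w hw =>
        obtain ⟨τ, rfl⟩ := hw
        obtain ⟨c, hc⟩ := conj_eig hv (RingEquiv.refl ℂ) τ
        rw [hid] at hc
        change DZ Z *ᵥ (fun i => τ (v i)) ∈ CS v
        rw [hc]
        exact Submodule.smul_mem _ _ (Submodule.subset_span ⟨τ, rfl⟩)
      | zero =>
        rw [mulVec_zero]
        exact Submodule.zero_mem _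
      | add x y _ _ h1 h2 =>
        rw [mulVec_add]
        exact Submodule.add_mem _ h1 h2
      | smul a x _ h1 =>
        rw [mulVec_smul]
        exact Submodule.smul_mem _ _ h1
    · intro h0
      apply hv0
      have h1 : v ∈ CS v := Submodule.subset_span ⟨RingEquiv.refl ℂ, rfl⟩
      rw [h0, Submodule.mem_bot] at h1
      exact h1
  intro σ
  have h2 : ∀ x : Fin g ⊕ Fin g → ℂ,
      ((DZ Z).map σ * DZ Z) *ᵥ x = (DZ Z * (DZ Z).map σ) *ᵥ x := by
    intro x
    have hx : x ∈ CS v := by rw [htop]; trivial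
    unfold CS at hx
    induction hx using Submodule.span_induction with
    | mem w hw =>
      obtain ⟨τ, rfl⟩ := hw
      obtain ⟨c, hc⟩ := conj_eig hv (RingEquiv.refl ℂ) τ
      obtain ⟨c', hc'⟩ := conj_eig hv σ τ
      rw [hid] at hc
      change ((DZ Z).map σ * DZ Z) *ᵥ (fun i => τ (v i)) =
        (DZ Z * (DZ Z).map σ) *ᵥ (fun i => τ (v i))
      rw [← mulVec_mulVec, ← mulVec_mulVec, hc, hc', mulVec_smul, mulVec_smul, hc, hc',
        smul_smul, smul_smul, mul_comm]
    | zero => rw [mulVec_zero, mulVec_zero]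
    | add x y _ _ h1 h2 => rw [mulVec_add, mulVec_add, h1, h2]
    | smul a x _ h1 => rw [mulVec_smul, mulVec_smul, h1]
  ext i j
  have h3 := congrFun (h2 (Pi.single j 1)) i
  rwa [mulVec_single_one, mulVec_single_one] at h3

end Pool.Agent.Q144.D3
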